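import Pool.Agent.Helper34.CAR.GoalsB

/-!
# Project CAR (MP_d97caa_an): the limit of a matricial system is the CAR algebra
-/

set_option autoImplicit false

open scoped ComplexOrder

namespace Pool.Agent.Helper2.CAR

open Pool.Agent.Helper34.CAR

section
variable {I B : Type} [Fintype I] [DecidableEq I] [CStarAlgebra B] {n : ℕ}

/-- The scalar matrices, reindexed and conjugated by a unitary. -/
noncomputable def scH (r : I ≃ Fin n) (v : Mt I B) (h1 : star v * v = 1) (h2 : v * star v = 1) :
    CStarMatrix (Fin n) (Fin n) ℂ →⋆ₐ[ℂ] Mt I B where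
  toFun y := star v * Mt.scal (fun x x' => y (r x) (r x')) * v
  map_one' := by
    have h : (Mt.scal (fun x x' => (1 : CStarMatrix (Fin n) (Fin n) ℂ) (r x) (r x')) : Mt I B)
        = 1 := by
      ext x x'
      rw [Mt.scal_apply, CStarMatrix.one_apply, Mt.one_apply]
      by_cases hx : x = x'
      · rw [if_pos hx, if_pos (by rw [hx]), map_one]
      · rw [if_neg hx, if_neg (fun h => hx (r.injective h)), map_zero]
    rw [h, mul_one, h1]
  map_mul' y z := by
    have h : (Mt.scal (fun x x' => (y * z) (r x) (r x')) : Mt I B)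
        = Mt.scal (fun x x' => y (r x) (r x')) * Mt.scal (fun x x' => z (r x) (r x')) := by
      ext x x'
      rw [Mt.scal_apply, CStarMatrix.mul_apply, Mt.mul_apply, map_sum, ← r.sum_comp]
      refine Finset.sum_congr rfl fun k _ => ?_
      rw [map_mul]
      rfl
    rw [h]
    simp only [mul_assoc]
    rw [← mul_assoc v (star v), h2, one_mul]
  map_zero' := by
    have h : (Mt.scal (fun x x' => (0 : CStarMatrix (Fin n) (Fin n) ℂ) (r x) (r x')) : Mt I B)
        = 0 := by
      ext x x'
      rw [Mt.scal_apply, CStarMatrix.zero_apply, map_zero]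
      rfl
    rw [h, mul_zero, zero_mul]
  map_add' y z := by
    have h : (Mt.scal (fun x x' => (y + z) (r x) (r x')) : Mt I B)
        = Mt.scal (fun x x' => y (r x) (r x')) + Mt.scal (fun x x' => z (r x) (r x')) := by
      ext x x'
      rw [Mt.scal_apply, CStarMatrix.add_apply, map_add]
      rfl
    rw [h, mul_add, add_mul]
  commutes' c := by
    have h : (Mt.scal (fun x x' => (algebraMap ℂ (CStarMatrix (Fin n) (Fin n) ℂ) c) (r x) (r x'))
        : Mt I B) = algebraMap ℂ _ c := by
      ext x x'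
      rw [Mt.scal_apply, Mt.algebraMap_apply, CStarMatrix.algebraMap_apply]
      by_cases hx : x = x'
      · rw [if_pos hx, if_pos (by rw [hx])]
        rfl
      · rw [if_neg hx, if_neg (fun h => hx (r.injective h)), map_zero]
    rw [h, mul_assoc, Algebra.commutes, ← mul_assoc, h1, one_mul]
  map_star' y := by
    have h : (Mt.scal (fun x x' => (star y) (r x) (r x')) : Mt I B)
        = star (Mt.scal (fun x x' => y (r x) (r x'))) := by
      ext x x'
      rw [Mt.scal_apply, CStarMatrix.star_apply, Mt.star_apply, Mt.scal_apply]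
      exact algebraMap_star_comm _
    rw [h, star_mul, star_mul, star_star, mul_assoc]

theorem scH_apply (r : I ≃ Fin n) (v : Mt I B) (h1 : star v * v = 1) (h2 : v * star v = 1)
    (y : CStarMatrix (Fin n) (Fin n) ℂ) :
    scH r v h1 h2 y = star v * Mt.scal (fun x x' => y (r x) (r x')) * v := rfl

theorem scH_injective [Nontrivial B] (r : I ≃ Fin n) (v : Mt I B) (h1 : star v * v = 1)
    (h2 : v * star v = 1) : Function.Injective (scH r v h1 h2) := by
  intro y z h
  rw [scH_apply, scH_apply] at h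
  have h3 : (Mt.scal (fun x x' => y (r x) (r x')) : Mt I B) =
      Mt.scal (fun x x' => z (r x) (r x')) := by
    have h4 := congrArg (fun t => v * t * star v) h
    simp only [mul_assoc, h2, mul_one] at h4
    rwa [← mul_assoc, ← mul_assoc, h2, one_mul, one_mul] at h4
  refine CStarMatrix.ext fun p q => ?_
  have h5 : (Mt.scal (fun x x' => y (r x) (r x')) : Mt I B) (r.symm p) (r.symm q) =
      (Mt.scal (fun x x' => z (r x) (r x')) : Mt I B) (r.symm p) (r.symm q) := by rw [h3]
  rw [Mt.scal_apply, Mt.scal_apply, r.apply_symm_apply, r.apply_symm_apply] at h5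
  exact (algebraMap ℂ B).injective h5

theorem scH_surj (r : I ≃ Fin n) (v : Mt I B) (h1 : star v * v = 1) (h2 : v * star v = 1)
    (x : I → I → ℂ) : ∃ y, scH r v h1 h2 y = star v * Mt.scal x * v := by
  refine ⟨CStarMatrix.ofMatrix fun p q => x (r.symm p) (r.symm q), ?_⟩
  rw [scH_apply]
  congr 3
  funext a b
  change x (r.symm (r a)) (r.symm (r b)) = x a b
  rw [r.symm_apply_apply, r.symm_apply_apply]

end

theorem carl : S_CARL := by
  intro B _ _ θ s ⟨v, hv, hstep, happ⟩ L _ ι hι hinj hdense
  choose a ha using s.card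
  have ha1 : ∀ i, 1 ≤ a i := by
    intro i
    by_contra h
    have h0 : a i = 0 := by omega
    have h1 : Fintype.card (s.C i) = 1 := by rw [ha i, h0, pow_zero]
    have h2 : s.c0 i = s.c1 i := by
      have := Fintype.card_le_one_iff_subsingleton.mp h1.le
      exact Subsingleton.elim _ _
    exact (s.step i).1 h2
  let e : ℕ → ℕ := fun i => ∑ k ∈ Finset.range i, a k
  have he : ∀ i, Fintype.card (s.S i) = 2 ^ e i := by
    intro i
    induction i with
    | zero =>
      have h1 : Subsingleton (s.S 0) := ⟨fun x y => (s.uniq x).trans (s.uniq y).symm⟩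
      have h2 : Fintype.card (s.S 0) ≤ 1 := Fintype.card_le_one_iff_subsingleton.mpr h1
      have h3 : 0 < Fintype.card (s.S 0) := Fintype.card_pos_iff.mpr ⟨s.s0⟩
      simp only [e, Finset.range_zero, Finset.sum_empty, pow_zero]
      omega
    | succ i ih =>
      rw [Fintype.card_congr (s.e i), Fintype.card_prod, ih, ha i, ← pow_add]
      simp only [e, Finset.sum_range_succ]
  have r : ∀ i, s.S i ≃ Fin (2 ^ e i) := fun i => Fintype.equivFinOfCardEq (he i)
  let j : ∀ i, CStarMatrix (Fin (2 ^ e i)) (Fin (2 ^ e i)) ℂ →⋆ₐ[ℂ] L := fun i =>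
    (ι i).comp (scH (r i) (v i) (hv i).1 (hv i).2)
  have hj : ∀ i y, j i y = ι i (scH (r i) (v i) (hv i).1 (hv i).2 y) := fun _ _ => rfl
  have hpush : ∀ (i d : ℕ) (x : s.A i), ι (i + d) (s.push i d x) = ι i x := by
    intro i d x
    induction d with
    | zero => rfl
    | succ d ih => exact (hι (i + d) _).trans ih
  refine ⟨e, j, ?_, ?_, ?_, ?_⟩
  · refine strictMono_nat_of_lt_succ fun i => ?_
    simp only [e, Finset.sum_range_succ]
    have := ha1 i
    omega
  · intro i
    exact (hinj i).comp (scH_injective (r i) (v i) (hv i).1 (hv i).2)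
  · rintro i _ ⟨y, rfl⟩
    obtain ⟨x', hx'⟩ := hstep i (fun x x' => y (r i x) (r i x'))
    obtain ⟨y', hy'⟩ := scH_surj (r (i + 1)) (v (i + 1)) (hv (i + 1)).1 (hv (i + 1)).2 x'
    refine ⟨y', ?_⟩
    rw [hj, hj, hy', ← hx', hι, scH_apply]
  · rw [Metric.dense_iff]
    intro b ε hε
    obtain ⟨b', hb', hb⟩ := Metric.dense_iff.mp hdense b (ε / 2) (half_pos hε)
    obtain ⟨i, c, rfl⟩ := Set.mem_iUnion.mp hb
    obtain ⟨d, x, hx⟩ := happ i c (ε / 2) (half_pos hε)
    obtain ⟨y, hy⟩ := scH_surj (r (i + d)) (v (i + d)) (hv (i + d)).1 (hv (i + d)).2 x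
    refine ⟨j (i + d) y, ?_, Set.mem_iUnion.mpr ⟨i + d, y, rfl⟩⟩
    rw [Metric.mem_ball, dist_eq_norm] at hb' ⊢
    rw [hj, hy]
    have h1 : ‖ι (i + d) (s.push i d c - star (v (i + d)) * Mt.scal x * v (i + d))‖ < ε / 2 :=
      lt_of_le_of_lt (NonUnitalStarAlgHom.norm_apply_le _ _) hx
    rw [map_sub, hpush] at h1
    calc ‖ι (i + d) (star (v (i + d)) * Mt.scal x * v (i + d)) - b‖
        = ‖(ι i c - b) - (ι i c - ι (i + d) (star (v (i + d)) * Mt.scal x * v (i + d)))‖ := by
          congr 1; abel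
      _ ≤ ‖ι i c - b‖ + ‖ι i c - ι (i + d) (star (v (i + d)) * Mt.scal x * v (i + d))‖ :=
          norm_sub_le _ _
      _ < ε := by linarith

end Pool.Agent.Helper2.CAR
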