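import Pool.Agent.Helper34.CAR.GoalsC
import Pool.Agent.Helper39.CR.OMG

/-!
Project CAR, goals C: OMGQ.
-/

open scoped ComplexOrder ZeroAtInfty
open TopologicalSpace

namespace Pool.Agent.Helper2.CAR5

open Pool.Agent.Helper34.CAR Pool.Agent.Helper39.Uct Pool.Agent.Helper39.CR

noncomputable section

theorem push_mul {B : Type} [CStarAlgebra B] {θ : B →⋆ₐ[ℂ] B} (s : Sys B θ) (k m : ℕ)
    (a b : s.A k) : s.push k m (a * b) = s.push k m a * s.push k m b := by
  induction m with
  | zero => rfl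
  | succ m ih => rw [push_succ, push_succ, push_succ, ih, map_mul]

theorem push_star {B : Type} [CStarAlgebra B] {θ : B →⋆ₐ[ℂ] B} (s : Sys B θ) (k m : ℕ)
    (a : s.A k) : s.push k m (star a) = star (s.push k m a) := by
  induction m with
  | zero => rfl
  | succ m ih => rw [push_succ, push_succ, ih, map_star]

theorem push_grd {B : Type} [CStarAlgebra B] {θ : B →⋆ₐ[ℂ] B} (s : Sys B θ) (n k m : ℕ)
    (a : s.A k) (ha : a ∈ grd B (wz s n k)) : s.push k m a ∈ grd B (wz s n (k + m)) := by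
  induction m with
  | zero => exact ha
  | succ m ih =>
    rw [push_succ]
    exact κ_mem s n (k + m) _ ih

/-- Conjugation by an isometry does not increase the norm. -/
theorem conj_norm_le {R : Type} [CStarAlgebra R] (w t : R) (hw : star w * w = 1) :
    ‖star w * t * w‖ ≤ ‖t‖ := by
  have hn : ‖w‖ ≤ 1 := by
    by_cases hR : Nontrivial R
    · have : ‖w‖ * ‖w‖ = 1 := by
        rw [← CStarRing.norm_star_mul_self, hw, CStarRing.norm_one]
      nlinarith [norm_nonneg w]
    · rw [not_nontrivial_iff_subsingleton] at hR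
      rw [Subsingleton.elim w 0, norm_zero]
      exact zero_le_one
  calc ‖star w * t * w‖ ≤ ‖star w‖ * ‖t‖ * ‖w‖ :=
        (norm_mul_le _ _).trans (mul_le_mul_of_nonneg_right (norm_mul_le _ _) (norm_nonneg _))
    _ ≤ 1 * ‖t‖ * 1 := by
        rw [norm_star]
        exact mul_le_mul (mul_le_mul_of_nonneg_right hn (norm_nonneg _)) hn (norm_nonneg _)
          (by positivity)
    _ = ‖t‖ := by ring

/-- The norm of a positive matrix is an eigenvalue. -/
theorem exists_eigen {S : Type} [Fintype S] [DecidableEq S] (T0 : Mt S ℂ)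
    (hpos : 0 < ‖star T0 * T0‖) :
    ∃ ξ : S → ℂ, ξ ≠ 0 ∧ ∀ x, ∑ y, (star T0 * T0) x y * ξ y = (‖star T0 * T0‖ : ℂ) * ξ x := by
  letI := CStarAlgebra.spectralOrder (Mt S ℂ)
  haveI := CStarAlgebra.spectralOrderedRing (Mt S ℂ)
  set T : Mt S ℂ := star T0 * T0 with hT
  haveI : Nontrivial (Mt S ℂ) := ⟨⟨T, 0, fun h => by
    rw [h, norm_zero] at hpos
    exact lt_irrefl _ hpos⟩⟩
  have h0 : 0 ≤ T := star_mul_self_nonneg T0
  have h1 : ‖T‖ ∈ spectrum ℝ T := CStarAlgebra.norm_mem_spectrum_of_nonneg h0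
  rw [spectrum.mem_iff] at h1
  let M : Matrix S S ℂ := fun x y => (algebraMap ℝ (Mt S ℂ) ‖T‖ - T) x y
  have hdet : M.det = 0 := by
    by_contra hd
    apply h1
    have hu : IsUnit M.det := isUnit_iff_ne_zero.2 hd
    let N : Mt S ℂ := Mt.of fun x y => M⁻¹ x y
    have e1 : (algebraMap ℝ (Mt S ℂ) ‖T‖ - T) * N = 1 := by
      ext x y
      have := congrFun (congrFun (Matrix.mul_nonsing_inv M hu) x) y
      rw [Matrix.mul_apply, Matrix.one_apply] at this
      rw [Mt.mul_apply, Mt.one_apply]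
      exact this
    have e2 : N * (algebraMap ℝ (Mt S ℂ) ‖T‖ - T) = 1 := by
      ext x y
      have := congrFun (congrFun (Matrix.nonsing_inv_mul M hu) x) y
      rw [Matrix.mul_apply, Matrix.one_apply] at this
      rw [Mt.mul_apply, Mt.one_apply]
      exact this
    exact ⟨⟨_, N, e1, e2⟩, rfl⟩
  obtain ⟨ξ, hξ, hM⟩ := Matrix.exists_mulVec_eq_zero_iff.2 hdet
  refine ⟨ξ, hξ, fun x => ?_⟩
  have h2 := congrFun hM x
  have h3 : ∀ y, M x y = (if x = y then (‖T‖ : ℂ) else 0) - T x y := by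
    intro y
    change (algebraMap ℝ (Mt S ℂ) ‖T‖) x y - T x y = _
    congr 1
  simp only [Matrix.mulVec, dotProduct, h3, sub_mul, Finset.sum_sub_distrib, ite_mul, zero_mul,
    Finset.sum_ite_eq, Finset.mem_univ, if_true, Pi.zero_apply] at h2
  exact (sub_eq_zero.1 h2).symm

theorem omgq (hS : S_SSTR) (hK : S_KINJ) : S_OMGQ := by
  intro X _ θ s hs n k r hr hf ε hε hlt
  set t : s.A k := star r * r with ht
  have htn : ‖t‖ = ‖r‖ ^ 2 := by rw [ht, CStarRing.norm_star_mul_self, sq]
  have htf : ∀ x y, (t x y).fst = 0 := by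
    intro x y
    rw [ht, Mt.mul_apply, ← chr_apply, map_sum]
    refine Finset.sum_eq_zero fun z _ => ?_
    rw [map_mul, chr_apply X (r z y), hf, mul_zero]
  have htg : t ∈ grd (Unitization ℂ X) (wz s n k) :=
    mul_mem (star_mem hr) hr
  obtain ⟨v, hv, -, hv3⟩ := hs
  obtain ⟨m, x, hx⟩ := hv3 k t (ε / 2) (by linarith)
  obtain ⟨hv1, hv2⟩ := hv (k + m)
  let ω : s.A (k + m) →⋆ₐ[ℂ] Mt (s.S (k + m)) ℂ := Mt.map (chr X)
  have hω : ∀ b : s.A (k + m), ‖ω b‖ ≤ ‖b‖ := fun b => NonUnitalStarAlgHom.norm_apply_le ω b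
  let y : Mt (s.S (k + m)) ℂ := Mt.of x
  let σ : Mt (s.S (k + m)) ℂ →⋆ₐ[ℂ] s.A (k + m) := Mt.map (StarAlgHom.ofId ℂ (Unitization ℂ X))
  have hσ : ∀ c, ‖σ c‖ ≤ ‖c‖ := fun c => NonUnitalStarAlgHom.norm_apply_le σ c
  have hσy : σ y = Mt.scal x := Mt.ext fun i j => rfl
  have hωσ : ω (Mt.scal x : s.A (k + m)) = y := by
    ext i j
    rfl
  have hw1 : star (ω (v (k + m))) * ω (v (k + m)) = 1 := by
    rw [← map_star, ← map_mul, hv1, map_one]
  have hw2 : ω (v (k + m)) * star (ω (v (k + m))) = 1 := by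
    rw [← map_star, ← map_mul, hv2, map_one]
  -- the positive scalar matrix
  have hTT : ω (s.push k m t) = star (ω (s.push k m r)) * ω (s.push k m r) := by
    rw [ht, push_mul, push_star, map_mul, map_star]
  have hy : ‖y‖ ≤ ‖star (ω (v (k + m))) * y * ω (v (k + m))‖ := by
    have h4 : y = star (star (ω (v (k + m)))) * (star (ω (v (k + m))) * y * ω (v (k + m))) *
        star (ω (v (k + m))) := by
      rw [star_star]
      calc y = (ω (v (k + m)) * star (ω (v (k + m)))) * y *
            (ω (v (k + m)) * star (ω (v (k + m)))) := by rw [hw2, one_mul, mul_one]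
        _ = _ := by simp only [mul_assoc]
    conv_lhs => rw [h4]
    refine conj_norm_le _ _ ?_
    rw [star_star, hw2]
  have h1 : ‖ω (s.push k m t) - star (ω (v (k + m))) * y * ω (v (k + m))‖ < ε / 2 := by
    have h2 := hω (s.push k m t - star (v (k + m)) * Mt.scal x * v (k + m))
    rw [map_sub, map_mul, map_mul, map_star, hωσ] at h2
    exact h2.trans_lt hx
  have h5 : ‖star (v (k + m)) * Mt.scal x * v (k + m)‖ ≤ ‖y‖ := by
    refine (conj_norm_le _ _ hv1).trans ?_
    rw [← hσy]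
    exact hσ y
  have h6 := norm_sub_norm_le (s.push k m t) (star (v (k + m)) * Mt.scal x * v (k + m))
  rw [push_norm_eq s (hK _ _ s) k m t] at h6
  have h7 := norm_sub_norm_le (star (ω (v (k + m))) * y * ω (v (k + m))) (ω (s.push k m t))
  rw [norm_sub_rev] at h7
  have hTn : ‖r‖ ^ 2 - ε ≤ ‖ω (s.push k m t)‖ := by
    rw [← htn]
    linarith
  have hμ : 0 < ‖ω (s.push k m t)‖ := by linarith
  obtain ⟨ξ, hξ, hTξ⟩ : ∃ ξ : s.S (k + m) → ℂ, ξ ≠ 0 ∧ ∀ x, ∑ y, (ω (s.push k m t)) x y * ξ y =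
      (‖ω (s.push k m t)‖ : ℂ) * ξ x := by
    rw [hTT] at hμ ⊢
    exact exists_eigen _ hμ
  set μ : ℝ := ‖ω (s.push k m t)‖ with hμd
  set T : Mt (s.S (k + m)) ℂ := ω (s.push k m t) with hT
  have hTa : ∀ i j, T i j = (s.push k m t i j).fst := fun i j => rfl
  have hpg := push_grd s n k m t htg
  have hTg : ∀ i j, wz s n (k + m) i ≠ wz s n (k + m) j → T i j = 0 := by
    intro i j hij
    rw [hTa, hpg i j hij]
    rfl
  obtain ⟨p, hp⟩ : ∃ p, ξ p ≠ 0 := by
    by_contra h
    push Not at h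
    exact hξ (funext h)
  let ξ' : s.S (k + m) → ℂ := fun i => if wz s n (k + m) i = wz s n (k + m) p then ξ i else 0
  have hTξ' : ∀ i, ∑ j, T i j * ξ' j = (μ : ℂ) * ξ' i := by
    intro i
    by_cases hi : wz s n (k + m) i = wz s n (k + m) p
    · have e1 : ξ' i = ξ i := if_pos hi
      rw [e1, ← hTξ i]
      refine Finset.sum_congr rfl fun j _ => ?_
      by_cases hj : wz s n (k + m) j = wz s n (k + m) p
      · have e2 : ξ' j = ξ j := if_pos hj
        rw [e2]
      · rw [hTg i j (fun h => hj (h.symm.trans hi)), zero_mul, zero_mul]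
    · have e1 : ξ' i = 0 := if_neg hi
      rw [e1, mul_zero]
      refine Finset.sum_eq_zero fun j _ => ?_
      by_cases hj : wz s n (k + m) j = wz s n (k + m) p
      · rw [hTg i j (fun h => hi (h.trans hj)), zero_mul]
      · have e2 : ξ' j = 0 := if_neg hj
        rw [e2, mul_zero]
  let N : ℝ := ∑ i, ‖ξ' i‖ ^ 2
  have hN : 0 < N := by
    refine Finset.sum_pos' (fun i _ => by positivity) ⟨p, Finset.mem_univ _, ?_⟩
    have e2 : ξ' p = ξ p := if_pos rfl
    rw [e2]
    have := norm_pos_iff.2 hp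
    positivity
  let η : s.S (k + m) → ℂ := fun i => ((Real.sqrt N)⁻¹ : ℂ) * ξ' i
  have hTη : ∀ i, ∑ j, T i j * η j = (μ : ℂ) * η i := by
    intro i
    change ∑ j, T i j * (((Real.sqrt N)⁻¹ : ℂ) * ξ' j) = (μ : ℂ) * (((Real.sqrt N)⁻¹ : ℂ) * ξ' i)
    rw [mul_left_comm, ← hTξ' i, Finset.mul_sum]
    refine Finset.sum_congr rfl fun j _ => by ring
  have hηg : ∀ i, wz s n (k + m) i ≠ wz s n (k + m) p → η i = 0 := by
    intro i hi
    change ((Real.sqrt N)⁻¹ : ℂ) * ξ' i = 0
    have e1 : ξ' i = 0 := if_neg hi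
    rw [e1, mul_zero]
  have hηn : ∑ i, star (η i) * η i = 1 := by
    have e1 : ∀ i, star (η i) * η i = ((N⁻¹ * ‖ξ' i‖ ^ 2 : ℝ) : ℂ) := by
      intro i
      have e2 : star (η i) * η i = ((‖η i‖ ^ 2 : ℝ) : ℂ) := by
        have := Complex.conj_mul' (η i)
        rw [← Complex.star_def] at this
        rw [this]
        push_cast
        rfl
      rw [e2]
      congr 1
      change ‖((Real.sqrt N)⁻¹ : ℂ) * ξ' i‖ ^ 2 = _
      rw [norm_mul, norm_inv, Complex.norm_real, Real.norm_of_nonneg (Real.sqrt_nonneg N), mul_pow,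
        inv_pow, Real.sq_sqrt hN.le]
    rw [Finset.sum_congr rfl fun i _ => e1 i, ← Complex.ofReal_sum, ← Finset.mul_sum]
    have e3 : N⁻¹ * ∑ i, ‖ξ' i‖ ^ 2 = 1 := inv_mul_cancel₀ hN.ne'
    rw [e3, Complex.ofReal_one]
  clear_value η
  obtain ⟨P, hP, -⟩ := hS _ _ s k t htf m
  have hTP : ∀ i j, P i → T i j = 0 := by
    intro i j hi
    obtain ⟨q1, q2, -⟩ := hP i j
    by_cases hj : P j
    · rw [hTa]
      exact q1 hi hj
    · rw [hTa, q2 (fun h => hj (h.1 hi))]
      rfl
  have hηP : ∀ i, P i → η i = 0 := by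
    intro i hi
    have e1 := hTη i
    rw [Finset.sum_eq_zero (fun j _ => by rw [hTP i j hi, zero_mul])] at e1
    have e2 : (μ : ℂ) ≠ 0 := by
      exact_mod_cast hμ.ne'
    exact (mul_eq_zero.1 e1.symm).resolve_left e2
  let V : s.A (k + m) := Mt.of fun i j => if j = p then algebraMap ℂ (Unitization ℂ X) (η i) else 0
  have hVp : ∀ i, V i p = algebraMap ℂ (Unitization ℂ X) (η i) := fun i => if_pos rfl
  have hVn : ∀ i j, j ≠ p → V i j = 0 := fun i j hj => if_neg hj
  have hkey : ∀ i j, star (V i p) * s.push k m t i j * V j p =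
      algebraMap ℂ (Unitization ℂ X) (star (η i) * T i j * η j) := by
    intro i j
    rw [hVp, hVp]
    by_cases hi : P i
    · rw [hηP i hi, map_zero, star_zero, zero_mul, zero_mul, star_zero, zero_mul, zero_mul,
        map_zero]
    · by_cases hj : P j
      · rw [hηP j hj, map_zero, mul_zero, mul_zero, map_zero]
      · obtain ⟨c, hc⟩ := (hP i j).2.2 hi hj
        have e1 : T i j = c := by
          rw [hTa, hc]
          rfl
        rw [hc, e1, map_mul, map_mul]
        congr 2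
        exact (algebraMap_star_comm (R := ℂ) (A := Unitization ℂ X) (η i)).symm
  refine ⟨m, p, V, μ, ?_, hTn, ?_, ?_⟩
  · intro i j hij
    by_cases hj : j = p
    · rw [hj, hVp, hηg i (by rw [← hj]; exact hij), map_zero]
    · exact hVn i j hj
  · refine Mt.ext fun i j => ?_
    rw [Mt.mul_apply, Mt.single_apply]
    by_cases h : i = p ∧ j = p
    · rw [if_pos h, h.1, h.2]
      have e1 : ∀ l, (star V) p l * V l p = algebraMap ℂ (Unitization ℂ X) (star (η l) * η l) := by
        intro l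
        rw [Mt.star_apply, hVp, map_mul]
        congr 1
        exact (algebraMap_star_comm (R := ℂ) (A := Unitization ℂ X) (η l)).symm
      rw [Finset.sum_congr rfl fun l _ => e1 l, ← map_sum, hηn, map_one]
    · rw [if_neg h]
      refine Finset.sum_eq_zero fun l _ => ?_
      rw [Mt.star_apply]
      by_cases hi : i = p
      · rw [hVn l j (fun hj => h ⟨hi, hj⟩), mul_zero]
      · rw [hVn l i hi, star_zero, zero_mul]
  · refine Mt.ext fun i j => ?_
    rw [Mt.smul_apply, Mt.single_apply, Mt.mul_apply]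
    by_cases h : i = p ∧ j = p
    · rw [if_pos h, h.1, h.2]
      have e1 : ∀ l, (star V * s.push k m t) p l * V l p =
          algebraMap ℂ (Unitization ℂ X) (∑ i', star (η i') * T i' l * η l) := by
        intro l
        rw [Mt.mul_apply, Finset.sum_mul, map_sum]
        refine Finset.sum_congr rfl fun i' _ => ?_
        rw [Mt.star_apply, hkey]
      rw [Finset.sum_congr rfl fun l _ => e1 l, ← map_sum, Finset.sum_comm]
      have e2 : ∀ i', ∑ l, star (η i') * T i' l * η l = (μ : ℂ) * (star (η i') * η i') := by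
        intro i'
        rw [mul_left_comm, ← hTη i', Finset.mul_sum]
        refine Finset.sum_congr rfl fun l _ => by ring
      rw [Finset.sum_congr rfl fun i' _ => e2 i', ← Finset.mul_sum, hηn, mul_one,
        Algebra.algebraMap_eq_smul_one]
    · rw [if_neg h, smul_zero]
      refine Finset.sum_eq_zero fun l _ => ?_
      by_cases hi : i = p
      · rw [hVn l j (fun hj => h ⟨hi, hj⟩), mul_zero]
      · rw [Mt.mul_apply, Finset.sum_mul]
        refine Finset.sum_eq_zero fun l' _ => ?_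
        rw [Mt.star_apply, hVn l' i hi, star_zero, zero_mul, zero_mul]

end

end Pool.Agent.Helper2.CAR5
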